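import Pool.Agent.N145.SX.Stm4

/-!
Project SX (helper145), task SEC2 (helper442): products of logarithmic canonical forms on two
varieties.
-/

set_option autoImplicit false
set_option linter.unusedSectionVars false

open Module FF

namespace Pool.Agent.N442.SX

theorem cramer_row {K : Type} [Field K] {m : ℕ} (A : Matrix (Fin m) (Fin m) K) (hA : A.det ≠ 0)
    (b : Fin m → K) (j : Fin m) :
    ∑ k, ((A.updateRow k b).det / A.det) * A k j = b j := by
  have h := congrFun (Matrix.mulVec_cramer A.transpose b) j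
  rw [Matrix.det_transpose] at h
  simp only [Matrix.mulVec, dotProduct, Matrix.transpose_apply, Matrix.cramer_transpose_apply,
    Pi.smul_apply, smul_eq_mul] at h
  have h2 : ∑ k, ((A.updateRow k b).det / A.det) * A k j =
      (∑ k, A k j * (A.updateRow k b).det) / A.det := by
    rw [Finset.sum_div]
    exact Finset.sum_congr rfl fun k _ => by ring
  rw [h2, h, mul_div_cancel_left₀ _ hA]

theorem exists_minor {K : Type} [Field K] {m N : ℕ} (X : Matrix (Fin N) (Fin m) K)
    (h : LinearIndependent K X.transpose.row) :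
    ∃ s : Fin m → Fin N, (X.submatrix s id).det ≠ 0 := by
  have h1 : X.rank = m := by
    rw [← Matrix.rank_transpose, h.rank_matrix, Fintype.card_fin]
  rw [Matrix.rank_eq_finrank_span_row] at h1
  have h2 := Submodule.exists_fun_fin_finrank_span_eq K (Set.range X.row)
  rw [h1] at h2
  obtain ⟨f, hf, -, hli⟩ := h2
  choose s hs using hf
  refine ⟨s, ?_⟩
  have h3 : (X.submatrix s id).row = f := by
    funext i
    rw [← hs i]
    rfl
  have h4 := Matrix.linearIndependent_rows_iff_isUnit.1 (h3 ▸ hli)
  exact ((Matrix.isUnit_iff_isUnit_det _).1 h4).ne_zero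

variable {K : Type} [Field K] [Algebra ℂ K]

theorem core (Q : Place ℂ K) (𝒟 : Derivation ℂ K K → Prop) {m n : ℕ}
    (hsub : ∀ (D : Derivation ℂ K K) (c : Fin m → K) (E : Fin m → Derivation ℂ K K), 𝒟 D →
      (∀ k, Q.Reg (c k)) → (∀ k, 𝒟 (E k)) → 𝒟 (D - ∑ k, c k • E k))
    (x : Fin m → K) (y : Fin n → K) (f g : K)
    (hx : ∀ D : Fin m → Derivation ℂ K K, (∀ i, 𝒟 (D i)) →
      Q.Reg ((Matrix.of fun i j => D i (x j) : Matrix (Fin m) (Fin m) K).det * f))
    (hy : ∀ D : Fin n → Derivation ℂ K K, (∀ i, 𝒟 (D i)) →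
      Q.Reg ((Matrix.of fun i j => D i (y j) : Matrix (Fin n) (Fin n) K).det * g))
    (D : Fin (m + n) → Derivation ℂ K K) (hD : ∀ i, 𝒟 (D i)) :
    Q.Reg ((Matrix.of fun i j => D i (Fin.append x y j) :
      Matrix (Fin (m + n)) (Fin (m + n)) K).det * (f * g)) := by
  classical
  set M : Matrix (Fin (m + n)) (Fin (m + n)) K := Matrix.of fun i j => D i (Fin.append x y j)
    with hM
  by_cases hdet : M.det = 0
  · rw [hdet, zero_mul]
    exact Q.reg_zero
  set X : Matrix (Fin (m + n)) (Fin m) K := Matrix.of fun i j => D i (x j) with hX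
  have hXM : X = M.submatrix id (Fin.castAdd n) := by
    ext i j
    simp [hX, hM, Fin.append_left]
  have hcol : LinearIndependent K X.transpose.row := by
    have h1 : LinearIndependent K M.transpose.row := by
      rw [Matrix.linearIndependent_rows_iff_isUnit, Matrix.isUnit_iff_isUnit_det,
        Matrix.det_transpose]
      exact isUnit_iff_ne_zero.2 hdet
    have h2 := h1.comp (Fin.castAdd n) (Fin.castAdd_injective m n)
    rw [hXM]
    exact h2
  obtain ⟨s0, hs0⟩ := exists_minor X hcol
  obtain ⟨s, hsS, hmin⟩ := Finset.exists_min_image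
    (Finset.univ.filter fun s : Fin m → Fin (m + n) => (X.submatrix s id).det ≠ 0)
    (fun s => Q.ord (X.submatrix s id).det) ⟨s0, by simpa using hs0⟩
  have hs : (X.submatrix s id).det ≠ 0 := by simpa using hsS
  have hinj : Function.Injective s := by
    intro a b hab
    by_contra hne
    exact hs (Matrix.det_zero_of_row_eq hne (by
      funext j
      simp [Matrix.submatrix_apply, hab]))
  -- the coefficients
  let c : Fin (m + n) → Fin m → K := fun i k =>
    ((X.submatrix s id).updateRow k (X i)).det / (X.submatrix s id).det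
  have hc : ∀ i k, Q.Reg (c i k) := by
    intro i k
    by_cases h0 : ((X.submatrix s id).updateRow k (X i)).det = 0
    · left
      simp only [c]
      rw [h0, zero_div]
    · right
      have h1 : (X.submatrix s id).updateRow k (X i) =
          X.submatrix (Function.update s k i) id := by
        ext a b
        rw [Matrix.updateRow_apply, Matrix.submatrix_apply]
        by_cases hak : a = k
        · subst hak
          simp
        · simp [hak]
      have h2 := hmin (Function.update s k i) (by
        simp only [Finset.mem_filter, Finset.mem_univ, true_and]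
        rw [← h1]
        exact h0)
      simp only [c]
      rw [Q.ord_div h0 hs]
      rw [← h1] at h2
      omega
  let D' : Fin (m + n) → Derivation ℂ K K := fun i => D i - ∑ k, c i k • D (s k)
  have hD' : ∀ i, 𝒟 (D' i) := fun i => hsub _ _ _ (hD i) (hc i) (fun k => hD _)
  have hD'a : ∀ i z, D' i z = D i z - ∑ k, c i k * D (s k) z := by
    intro i z
    simp only [D']
    rw [Derivation.sub_apply]
    congr 1
    rw [← Derivation.coeFnAddMonoidHom_apply, map_sum, Finset.sum_apply]
    rfl
  have hD'x : ∀ i j, D' i (x j) = 0 := by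
    intro i j
    rw [hD'a, sub_eq_zero]
    exact (cramer_row (X.submatrix s id) hs (X i) j).symm
  -- the equivalence
  have hcard : Fintype.card (Fin n) = Fintype.card ((Set.range s)ᶜ : Set (Fin (m + n))) := by
    rw [Fintype.card_compl_set, Set.card_range_of_injective hinj]
    simp
  let e2 : Fin n ≃ ((Set.range s)ᶜ : Set (Fin (m + n))) := Fintype.equivOfCardEq hcard
  let e : Fin m ⊕ Fin n ≃ Fin (m + n) :=
    ((Equiv.ofInjective s hinj).sumCongr e2).trans (Equiv.Set.sumCompl (Set.range s))
  have hel : ∀ i, e (Sum.inl i) = s i := by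
    intro i
    simp [e]
  set A : Matrix (Fin m) (Fin m) K := X.submatrix s id with hA
  let Bs : Matrix (Fin m) (Fin n) K := Matrix.of fun i j => D (s i) (y j)
  let Xr : Matrix (Fin n) (Fin m) K := Matrix.of fun i j => D (e (Sum.inr i)) (x j)
  let Br : Matrix (Fin n) (Fin n) K := Matrix.of fun i j => D (e (Sum.inr i)) (y j)
  let B' : Matrix (Fin n) (Fin n) K := Matrix.of fun i j => D' (e (Sum.inr i)) (y j)
  let C : Matrix (Fin n) (Fin m) K := Matrix.of fun i k => c (e (Sum.inr i)) k
  have hN : M.submatrix e finSumFinEquiv = Matrix.fromBlocks A Bs Xr Br := by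
    ext (i | i) (j | j)
    · rw [Matrix.fromBlocks_apply₁₁, Matrix.submatrix_apply, hel]
      simp [hM, hA, hX]
    · rw [Matrix.fromBlocks_apply₁₂, Matrix.submatrix_apply, hel]
      simp [hM, Bs]
    · rw [Matrix.fromBlocks_apply₂₁, Matrix.submatrix_apply]
      simp [hM, Xr]
    · rw [Matrix.fromBlocks_apply₂₂, Matrix.submatrix_apply]
      simp [hM, Br]
  have hLN : Matrix.fromBlocks 1 0 (-C) 1 * Matrix.fromBlocks A Bs Xr Br =
      Matrix.fromBlocks A Bs 0 B' := by
    rw [Matrix.fromBlocks_multiply]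
    congr 1
    · simp
    · simp
    · ext i j
      simp only [Matrix.add_apply, Matrix.neg_mul, Matrix.neg_apply, Matrix.one_mul,
        Matrix.zero_apply, Matrix.mul_apply]
      have h1 := hD'x (e (Sum.inr i)) j
      rw [hD'a] at h1
      have h2 : ∑ k, C i k * A k j = ∑ k, c (e (Sum.inr i)) k * D (s k) (x j) := rfl
      rw [h2]
      have h3 : Xr i j = D (e (Sum.inr i)) (x j) := rfl
      rw [h3]
      linear_combination h1
    · ext i j
      simp only [Matrix.add_apply, Matrix.neg_mul, Matrix.neg_apply, Matrix.one_mul,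
        Matrix.mul_apply]
      have h1 := hD'a (e (Sum.inr i)) (y j)
      have h2 : ∑ k, C i k * Bs k j = ∑ k, c (e (Sum.inr i)) k * D (s k) (y j) := rfl
      rw [h2]
      have h3 : Br i j = D (e (Sum.inr i)) (y j) := rfl
      have h4 : B' i j = D' (e (Sum.inr i)) (y j) := rfl
      rw [h3, h4, h1]
      ring
  have hdN : (M.submatrix e finSumFinEquiv).det = A.det * B'.det := by
    rw [hN]
    have h1 := congrArg Matrix.det hLN
    rw [Matrix.det_mul, Matrix.det_fromBlocks_zero₁₂, Matrix.det_fromBlocks_zero₂₁,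
      Matrix.det_one, Matrix.det_one, one_mul, one_mul] at h1
    exact h1
  have hsign : (M.submatrix e finSumFinEquiv).det =
      ((Equiv.Perm.sign (finSumFinEquiv.symm.trans e) : ℤ) : K) * M.det := by
    rw [← Matrix.det_permute]
    rw [← Matrix.det_submatrix_equiv_self finSumFinEquiv
      (M.submatrix (finSumFinEquiv.symm.trans e) id)]
    congr 1
    ext i j
    simp
  have h1 := hx (fun i => D (s i)) (fun i => hD _)
  have h2 := hy (fun i => D' (e (Sum.inr i))) (fun i => hD' _)
  have h3 := Q.reg_mul h1 h2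
  have h4 : (Matrix.of fun i j => D (s i) (x j) : Matrix (Fin m) (Fin m) K).det * f *
      ((Matrix.of fun i j => D' (e (Sum.inr i)) (y j) : Matrix (Fin n) (Fin n) K).det * g) =
      ((Equiv.Perm.sign (finSumFinEquiv.symm.trans e) : ℤ) : K) * (M.det * (f * g)) := by
    have h5 : (Matrix.of fun i j => D (s i) (x j) : Matrix (Fin m) (Fin m) K) = A := rfl
    have h6 : (Matrix.of fun i j => D' (e (Sum.inr i)) (y j) : Matrix (Fin n) (Fin n) K) = B' :=
      rfl
    rw [h5, h6, ← mul_assoc, ← mul_assoc, ← mul_assoc, ← hsign, hdN]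
    ring
  rw [h4] at h3
  rcases Int.units_eq_one_or (Equiv.Perm.sign (finSumFinEquiv.symm.trans e)) with h7 | h7
  · rw [h7] at h3
    simpa using h3
  · rw [h7] at h3
    have h8 := Q.reg_neg h3
    simpa using h8

open Pool.Agent.W602.GT (Divisorial RegAt DerReg DerLog LogAt)

theorem reg_sub_sum (Q : Place ℂ K) {m : ℕ} (a : K) (c b : Fin m → K) (ha : Q.Reg a)
    (hc : ∀ k, Q.Reg (c k)) (hb : ∀ k, Q.Reg (b k)) : Q.Reg (a - ∑ k, c k * b k) := by
  have h1 : ∀ S : Finset (Fin m), Q.Reg (∑ k ∈ S, c k * b k) := by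
    classical
    intro S
    induction S using Finset.induction_on with
    | empty => simpa using Q.reg_zero
    | insert k S hk ih =>
      rw [Finset.sum_insert hk]
      exact Q.reg_add (Q.reg_mul (hc k) (hb k)) ih
  rw [sub_eq_add_neg]
  exact Q.reg_add ha (Q.reg_neg (h1 _))

theorem der_sub_apply {m : ℕ} (D : Derivation ℂ K K) (c : Fin m → K)
    (E : Fin m → Derivation ℂ K K) (z : K) :
    (D - ∑ k, c k • E k) z = D z - ∑ k, c k * E k z := by
  rw [Derivation.sub_apply]
  congr 1
  rw [← Derivation.coeFnAddMonoidHom_apply, map_sum, Finset.sum_apply]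
  rfl

theorem derLog_sub (Q : Place ℂ K) {m : ℕ} (D : Derivation ℂ K K) (c : Fin m → K)
    (E : Fin m → Derivation ℂ K K) (hD : DerLog Q D) (hc : ∀ k, Q.Reg (c k))
    (hE : ∀ k, DerLog Q (E k)) : DerLog Q (D - ∑ k, c k • E k) := by
  intro z
  have h1 : (D - ∑ k, c k • E k) z / z = D z / z - ∑ k, c k * (E k z / z) := by
    rw [der_sub_apply, sub_div, Finset.sum_div]
    congr 1
    exact Finset.sum_congr rfl fun k _ => by ring
  rw [h1]
  exact reg_sub_sum Q _ _ _ (hD z) hc fun k => hE k z

theorem derReg_sub (Q : Place ℂ K) {m : ℕ} (D : Derivation ℂ K K) (c : Fin m → K)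
    (E : Fin m → Derivation ℂ K K) (hD : DerReg Q D) (hc : ∀ k, Q.Reg (c k))
    (hE : ∀ k, DerReg Q (E k)) : DerReg Q (D - ∑ k, c k • E k) := by
  intro z hz
  rw [der_sub_apply]
  exact reg_sub_sum Q _ _ _ (hD z hz) hc fun k => hE k z hz

open Pool.Agent.N145.SX (HX S_PULL S_SEC2)

/-- **Products of logarithmic canonical forms on two varieties.** -/
theorem SEC2 (hpull : S_PULL) : S_SEC2 := by
  intro K E F _ _ _ _ _ _ _ _ _ _ _ _ m n htE htF htK x hx y hy BX BY f hf g hg Q hQ
  refine ⟨fun D hD => ?_, fun hQB D hD => ?_⟩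
  · exact core Q (DerLog Q) (derLog_sub Q) (fun i => algebraMap E K (x i))
      (fun j => algebraMap F K (y j)) (algebraMap E K f) (algebraMap F K g)
      (fun D' hD' => hpull E K m (m + n) htE htK x hx BX f hf Q hQ D' (Or.inl hD'))
      (fun D' hD' => hpull F K n (m + n) htF htK y hy BY g hg Q hQ D' (Or.inl hD')) D hD
  · exact core Q (DerReg Q) (derReg_sub Q) (fun i => algebraMap E K (x i))
      (fun j => algebraMap F K (y j)) (algebraMap E K f) (algebraMap F K g)
      (fun D' hD' => hpull E K m (m + n) htE htK x hx BX f hf Q hQ D'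
        (Or.inr ⟨fun h => hQB (Or.inl h), hD'⟩))
      (fun D' hD' => hpull F K n (m + n) htF htK y hy BY g hg Q hQ D'
        (Or.inr ⟨fun h => hQB (Or.inr h), hD'⟩)) D hD

end Pool.Agent.N442.SX
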